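import Pool.Agent.KS6_49.SR.Split2

/-!
# `M[1]` and `W[1]`: random reductions of small communication, for arbitrary partitions of the input

We consider nonuniform random adaptive reductions from `p-CLIQUE` to `p-log-SAT(Γ_{1,d})` (formulas
with at most `d` literals per clause and with `v ≤ g(k) log (f(k) n ^ c)` variables) which are right
with probability at least `2 / 3` on each graph. The pairs of vertices are divided into a set `P` and the
other pairs, in an arbitrary way; one player knows the bits of the pairs in `P` and the other one the
other bits. For each history of answers and each possible clause, the question whether the clause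
belongs to the formula that is asked has a partition into `2 ^ c` rectangles (`SplitInto`), for
instance the transcripts of a deterministic protocol with `c` bits of communication.

* (1) The explicit bound: `N ^ 2 A (B - 4 n) ≤ n ^ 4 (1250 + 20000 q (2 v + 1) ^ d c)` with `q` questions,
  where `A` and `B` are the numbers of ordered pairs inside and outside `P` and `4 N + k - 4 ≤ n`.
* (2) If both parts have positive density (`A`, `B` at least `α n ^ 2`), then asymptotically
  `n ^ (2 - ε) ≤ 1 + q c` for all `f`, `g`, `c`, `d`, `k ≥ 4`, `ε > 0`: in this model `W[1]` is not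
  contained in `M[1]`.

The proof uses a corruption lemma for set disjointness with a linear exponent (a variant of the one of
Razborov, `Pool/Agent/KS6_49/SR/Raz.lean`), and an averaging argument over the placements of the hard
graphs among the vertices.
-/

set_option autoImplicit false

namespace Pool.Agent.Results.MP_ddf912_lc.ArbitraryPartitions

open Pool.Agent.KS6_49.SR

theorem result :
    -- (1) the explicit bound
    (∀ (n k N q v d c : ℕ), 4 ≤ k → 4 * N + (k - 4) ≤ n →
      ∀ P : Finset (Sym2 (Fin n)),
      ∀ (Ω : Type) [Finite Ω] [Nonempty Ω] (R : Ω → Reduction n q v d),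
        TwoSided k (fun ω => (R ω).Accepts) →
        (∀ ω h cl, SplitInto P (2 ^ c) ((R ω).clause h cl)) →
        N ^ 2 * ((inside P).card * ((outside P).card - 4 * n)) ≤
          n ^ 4 * (1250 + 20000 * (q * (2 * v + 1) ^ d * c))) ∧
    -- (2) the asymptotic form, for partitions into two parts of positive density
    (∀ (f g : ℕ → ℕ) (e d k : ℕ), 4 ≤ k → ∀ ε α : ℝ, 0 < ε → 0 < α → ∃ n0 : ℕ, ∀ n ≥ n0,
      ∀ (q v c : ℕ) (P : Finset (Sym2 (Fin n))),
      (v : ℝ) ≤ g k * (Real.logb 2 (f k * (n : ℝ) ^ e) + 1) →
      α * (n : ℝ) ^ 2 ≤ (inside P).card → α * (n : ℝ) ^ 2 ≤ (outside P).card →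
      ∀ (Ω : Type) [Finite Ω] [Nonempty Ω] (R : Ω → Reduction n q v d),
        TwoSided k (fun ω => (R ω).Accepts) →
        (∀ ω h cl, SplitInto P (2 ^ c) ((R ω).clause h cl)) →
        (n : ℝ) ^ (2 - ε) ≤ 1 + q * c) := by
  refine ⟨?_, ?_⟩
  · intro n k N q v d c hk hN P Ω _ _ R hR hr
    refine le_trans (Nat.mul_le_mul_left _ ?_) (split_bound hk hN P R hR hr)
    have h1 := good_large P
    rw [Nat.mul_sub]
    have h2 : (inside P).card * (4 * n) = 4 * n * (inside P).card := mul_comm _ _
    omega
  · intro f g e d k hk ε α hε hα
    obtain ⟨n0, hn0⟩ := asym4 f g e d k ε α hε hα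
    refine ⟨n0, fun n hn q v c P hv hA hB Ω _ _ R hR hr => ?_⟩
    exact (hn0 n hn).2 v hv q c (inside P).card (outside P).card (good P).card hA hB (good_large P)
      (split_bound hk (hn0 n hn).1 P R hR hr)

end Pool.Agent.Results.MP_ddf912_lc.ArbitraryPartitions
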