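import Pool.Agent.KS6_49.SR.Obl2
import Pool.Agent.KS6_49.SR.Asym3

/-!
# `M[1]` and `W[1]`: reductions computed by oblivious branching programs of superlinear length

We consider nonuniform random reductions from `p-CLIQUE` to `p-log-SAT(Γ_{1,d})` (formulas with at
most `d` literals per clause and with `v ≤ g(k) log (f(k) n ^ c)` variables). For each history of
answers and each possible clause, an oblivious branching program decides whether the clause belongs
to the question: a machine with a memory of `s` bits (width `2 ^ s`) reads adjacency bits of the graph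
in the order of a list `l` of pairs, the same for all clauses. The list is arbitrary: any order, any
number of repetitions of each pair; only its length is bounded.

* (1) Two-sided error `1 / 3`, deterministic programs, adaptive reductions: if `l` has length at most
  `τ N ^ 2`, where `4 N + k - 4 ≤ n`, then
  `N ^ 2 ≤ 4 ^ (4 τ + 1) (1250 + 20000 (4 τ + 1) q (2 v + 1) ^ d s)`.
* (2) One-sided error `1 - 2 ^ (-μ)`, adaptive reductions: nondeterministic programs recognise that
  the clause belongs to the question, and that it does not.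
* (3) One-sided error, many-one reductions: nondeterministic programs recognise only that the clause
  belongs to the formula.
* (4) For all `f`, `g`, `c`, `d`, `k ≥ 4`, `ε > 0` there is `δ > 0` such that for programs of length at
  most `δ n ^ 2 log n` and large `n`: `n ^ (2 - ε) ≤ 1 + q s` in (1), `n ^ (2 - ε) ≤ μ + q (s + 1)` in
  (2), and `n ^ (2 - ε) ≤ μ + s + 1` in (3). So in this model `W[1]` is not contained in `M[1]`.

The proofs use a cut lemma for sequences with repetitions (Alon and Maass, `obl` in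
`Pool/Agent/KS6_49/SR/Obl.lean`), and for (1) a corruption lemma for set disjointness
(`Pool/Agent/KS6_49/SR/Raz.lean`).
-/

set_option autoImplicit false

namespace Pool.Agent.Results.MP_ddf912_lc.ObliviousPrograms

open Pool.Agent.KS6_49.SR

theorem result :
    -- (1) two-sided error, deterministic programs
    (∀ (n k N q v d s τ : ℕ), 4 ≤ k → 4 * N + (k - 4) ≤ n →
      ∀ l : List (Sym2 (Fin n)), l.length ≤ τ * N ^ 2 →
      ∀ (Ω : Type) [Finite Ω] [Nonempty Ω] (R : Ω → Reduction n q v d),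
        TwoSided k (fun ω => (R ω).Accepts) →
        (∀ ω h cl, Decided l (2 ^ s) ((R ω).clause h cl)) →
        N ^ 2 ≤ 4 ^ (4 * τ + 1) *
          (1250 + 20000 * ((4 * τ + 1) * (q * (2 * v + 1) ^ d * s)))) ∧
    -- (2) one-sided error, nondeterministic programs for the clauses and their absence
    (∀ (n k N q v d s μ τ : ℕ), 4 ≤ k → 4 * N + (k - 4) ≤ n →
      ∀ l : List (Sym2 (Fin n)), l.length ≤ τ * N ^ 2 →
      ∀ (Ω : Type) [Finite Ω] [Nonempty Ω] (R : Ω → Reduction n q v d),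
        OneSided k μ (fun ω => (R ω).Accepts) →
        (∀ ω h cl, Recognised l (2 ^ s) ((R ω).clause h cl) ∧
          Recognised l (2 ^ s) (fun G => ¬ (R ω).clause h cl G)) →
        N ^ 2 ≤ 4 ^ (4 * τ + 1) * (μ + q * (2 * v + 1) ^ d * ((4 * τ + 3) * s + 1))) ∧
    -- (3) one-sided error, many-one reductions, nondeterministic programs for the clauses
    (∀ (n k N v d s μ τ : ℕ), 4 ≤ k → 4 * N + (k - 4) ≤ n →
      ∀ l : List (Sym2 (Fin n)), l.length ≤ τ * N ^ 2 →
      ∀ (Ω : Type) [Finite Ω] [Nonempty Ω] (F : Ω → Clause v d → SimpleGraph (Fin n) → Prop),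
        OneSided k μ (fun ω G => Sat fun cl => F ω cl G) →
        (∀ ω cl, Recognised l (2 ^ s) (F ω cl)) →
        N ^ 2 ≤ 4 ^ (4 * τ + 1) * (μ + (2 * v + 1) ^ d * ((4 * τ + 3) * s + 1))) ∧
    -- (4) the asymptotic forms, for programs of length `δ n ^ 2 log n`
    (∀ (f g : ℕ → ℕ) (c d k : ℕ), 4 ≤ k → ∀ ε : ℝ, 0 < ε → ∃ δ : ℝ, 0 < δ ∧ ∃ n0 : ℕ, ∀ n ≥ n0,
      ∀ (q v s μ : ℕ) (l : List (Sym2 (Fin n))),
      (l.length : ℝ) ≤ δ * (n : ℝ) ^ 2 * Real.log n →
      (v : ℝ) ≤ g k * (Real.logb 2 (f k * (n : ℝ) ^ c) + 1) →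
      (∀ (Ω : Type) [Finite Ω] [Nonempty Ω] (R : Ω → Reduction n q v d),
        TwoSided k (fun ω => (R ω).Accepts) →
        (∀ ω h cl, Decided l (2 ^ s) ((R ω).clause h cl)) →
        (n : ℝ) ^ (2 - ε) ≤ 1 + q * s) ∧
      (∀ (Ω : Type) [Finite Ω] [Nonempty Ω] (R : Ω → Reduction n q v d),
        OneSided k μ (fun ω => (R ω).Accepts) →
        (∀ ω h cl, Recognised l (2 ^ s) ((R ω).clause h cl) ∧
          Recognised l (2 ^ s) (fun G => ¬ (R ω).clause h cl G)) →
        (n : ℝ) ^ (2 - ε) ≤ μ + q * (s + 1)) ∧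
      (∀ (Ω : Type) [Finite Ω] [Nonempty Ω] (F : Ω → Clause v d → SimpleGraph (Fin n) → Prop),
        OneSided k μ (fun ω G => Sat fun cl => F ω cl G) →
        (∀ ω cl, Recognised l (2 ^ s) (F ω cl)) →
        (n : ℝ) ^ (2 - ε) ≤ μ + (s + 1))) := by
  refine ⟨?_, ?_, ?_, ?_⟩
  · intro n k N q v d s τ hk hN l hl Ω _ _ R hR hr
    exact obl_two_bound hk hN l τ hl R hR hr
  · intro n k N q v d s μ τ hk hN l hl Ω _ _ R hR hr
    exact obl_adaptive_bound hk hN l τ hl R hR (fun ω h cl => (hr ω h cl).1)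
      fun ω h cl => (hr ω h cl).2
  · intro n k N v d s μ τ hk hN l hl Ω _ _ F hF hr
    exact obl_manyone_bound hk hN l τ hl F hF hr
  · intro f g c d k hk ε hε
    obtain ⟨δ, hδ, n0, hn0⟩ := asym3 f g c d k ε hε
    refine ⟨δ, hδ, n0, fun n hn q v s μ l hl hv => ?_⟩
    obtain ⟨hN, hn1⟩ := hn0 n hn
    obtain ⟨τ, hτ, hn2⟩ := hn1 l.length hl
    have hP : (1 : ℝ) ≤ (4 * (τ : ℝ) + 1) * (2 * (v : ℝ) + 1) ^ d := by
      have h3 : (0 : ℝ) ≤ τ := Nat.cast_nonneg _
      have h4 : (0 : ℝ) ≤ v := Nat.cast_nonneg _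
      have h5 : (1 : ℝ) ≤ (2 * (v : ℝ) + 1) ^ d := one_le_pow₀ (by linarith)
      nlinarith
    set Q : ℝ := (2 * (v : ℝ) + 1) ^ d with hQ
    have hQ0 : 0 ≤ Q := by positivity
    have hτ0 : (0 : ℝ) ≤ τ := Nat.cast_nonneg _
    have hq0 : (0 : ℝ) ≤ q := Nat.cast_nonneg _
    have hs0 : (0 : ℝ) ≤ s := Nat.cast_nonneg _
    have hμ0 : (0 : ℝ) ≤ μ := Nat.cast_nonneg _
    refine ⟨?_, ?_, ?_⟩
    · intro Ω _ _ R hR hr
      refine hn2 v hv _ (by positivity) ?_
      have h1 := obl_two_bound hk hN l τ hτ R hR hr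
      have h2 : ((n / 8 : ℕ) : ℝ) ^ 2 ≤
          4 ^ (4 * τ + 1) * (1250 + 20000 * ((4 * τ + 1) * (q * Q * s))) := by
        rw [hQ]
        exact_mod_cast h1
      refine h2.trans (mul_le_mul_of_nonneg_left ?_ (by positivity))
      have h3 : 0 ≤ (4 * (τ : ℝ) + 1) * Q * (q * s) := by positivity
      calc (1250 : ℝ) + 20000 * ((4 * τ + 1) * (q * Q * s))
          = 1250 + 20000 * ((4 * (τ : ℝ) + 1) * Q * (q * s)) := by ring
        _ ≤ 40000 * ((4 * (τ : ℝ) + 1) * Q) + 40000 * ((4 * (τ : ℝ) + 1) * Q * (q * s)) := by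
            linarith
        _ = _ := by ring
    · intro Ω _ _ R hR hr
      refine hn2 v hv _ (by positivity) ?_
      have h1 := obl_adaptive_bound hk hN l τ hτ R hR (fun ω h cl => (hr ω h cl).1)
        fun ω h cl => (hr ω h cl).2
      have h2 : ((n / 8 : ℕ) : ℝ) ^ 2 ≤
          4 ^ (4 * τ + 1) * (μ + q * Q * ((4 * τ + 3) * s + 1)) := by
        rw [hQ]
        exact_mod_cast h1
      refine h2.trans (mul_le_mul_of_nonneg_left ?_ (by positivity))
      have h3 : (μ : ℝ) ≤ (4 * (τ : ℝ) + 1) * Q * μ := by nlinarith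
      have h4 : (4 * (τ : ℝ) + 3) * s + 1 ≤ 3 * ((4 * (τ : ℝ) + 1) * (s + 1)) := by nlinarith
      calc (μ : ℝ) + q * Q * ((4 * τ + 3) * s + 1)
          ≤ (4 * (τ : ℝ) + 1) * Q * μ + q * Q * (3 * ((4 * (τ : ℝ) + 1) * (s + 1))) := by
            gcongr
        _ = 1 * ((4 * (τ : ℝ) + 1) * Q * μ) + 3 * ((4 * (τ : ℝ) + 1) * Q * (q * (s + 1))) := by
            ring
        _ ≤ 40000 * ((4 * (τ : ℝ) + 1) * Q * μ) +
            40000 * ((4 * (τ : ℝ) + 1) * Q * (q * (s + 1))) := by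
            gcongr <;> norm_num
        _ = _ := by ring
    · intro Ω _ _ F hF hr
      refine hn2 v hv _ (by positivity) ?_
      have h1 := obl_manyone_bound hk hN l τ hτ F hF hr
      have h2 : ((n / 8 : ℕ) : ℝ) ^ 2 ≤
          4 ^ (4 * τ + 1) * (μ + Q * ((4 * τ + 3) * s + 1)) := by
        rw [hQ]
        exact_mod_cast h1
      refine h2.trans (mul_le_mul_of_nonneg_left ?_ (by positivity))
      have h3 : (μ : ℝ) ≤ (4 * (τ : ℝ) + 1) * Q * μ := by nlinarith
      have h4 : (4 * (τ : ℝ) + 3) * s + 1 ≤ 3 * ((4 * (τ : ℝ) + 1) * (s + 1)) := by nlinarith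
      calc (μ : ℝ) + Q * ((4 * τ + 3) * s + 1)
          ≤ (4 * (τ : ℝ) + 1) * Q * μ + Q * (3 * ((4 * (τ : ℝ) + 1) * (s + 1))) := by
            gcongr
        _ = 1 * ((4 * (τ : ℝ) + 1) * Q * μ) + 3 * ((4 * (τ : ℝ) + 1) * Q * (s + 1)) := by
            ring
        _ ≤ 40000 * ((4 * (τ : ℝ) + 1) * Q * μ) +
            40000 * ((4 * (τ : ℝ) + 1) * Q * (s + 1)) := by
            gcongr <;> norm_num
        _ = _ := by ring

end Pool.Agent.Results.MP_ddf912_lc.ObliviousPrograms
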