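import Pool.Agent.KS6_49.SR.Adapt
import Pool.Agent.KS6_49.SR.Upper
import Pool.Agent.KS6_49.SR.Asym

/-!
# `M[1]` and `W[1]`: reductions computed by nondeterministic streaming algorithms

We consider nonuniform reductions from `p-CLIQUE` to `p-log-SAT(Γ_{1,d})` (formulas with at most `d`
literals per clause and with `v ≤ g(k) log (f(k) n ^ c)` variables). For each possible clause, a
nondeterministic machine with a memory of `s` bits (`2 ^ s` states) reads the adjacency bits of the
graph in `p` passes. The order of the pairs in a pass is one of `r` arbitrary orders (`orders`, for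
instance `r = 1`, or `r = p` if all passes have different orders); the orders are the same for all
clauses. Deterministic machines are a special case: exchanging the accepting states and the others
gives a machine for the complement.

* (1) Adaptive reductions with `q` questions, and random ones with one-sided error: for each clause
  the machines recognise both whether it belongs to the question and whether it does not.
* (2) Many-one reductions: it is enough that for each clause a nondeterministic machine recognises
  whether it belongs to the formula.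
* (3), (4) Asymptotically `n ^ (2 - ε) ≤ 4 ^ r (μ + q ((p + 1) s + 1))` for all `f`, `g`, `c`, `d`,
  `k ≥ 4`, `ε > 0`: in this model `W[1]` is not contained in `M[1]`, even if (memory times number of
  passes times number of questions) is `n ^ (2 - ε)` and with `o(log n)` different orders.
* (5) The side of the nondeterminism in (2) is essential: there is a reduction such that for each
  clause a machine with `n ^ k` states recognises in one pass that it does not belong to the formula.
* (6) The constant width of the clauses is essential: for `n = 2 ^ b` there is a reduction with `k b`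
  variables and `2 b` literals per clause, computed by machines with a single state.
-/

set_option autoImplicit false

namespace Pool.Agent.Results.MP_ddf912_lc.StreamingReductions

open Pool.Agent.KS6_49.SR

theorem result :
    -- (1) adaptive random reductions
    (∀ (n k N q v d s μ : ℕ), 4 ≤ k → 4 * N + (k - 4) ≤ n →
      ∀ orders passes : List (List (Sym2 (Fin n))), (∀ l ∈ orders, l.Nodup) →
      (∀ l ∈ passes, l ∈ orders) →
      ∀ (Ω : Type) [Finite Ω] [Nonempty Ω] (R : Ω → Reduction n q v d),
        OneSided k μ (fun ω => (R ω).Accepts) →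
        (∀ ω h cl, Recognised passes.flatten (2 ^ s) ((R ω).clause h cl) ∧
          Recognised passes.flatten (2 ^ s) (fun G => ¬ (R ω).clause h cl G)) →
        N ^ 2 ≤ 4 ^ orders.length *
          (μ + q * (2 * v + 1) ^ d * ((2 * passes.length + 2) * s + 1))) ∧
    -- (2) random many-one reductions
    (∀ (n k N v d s μ : ℕ), 4 ≤ k → 4 * N + (k - 4) ≤ n →
      ∀ orders passes : List (List (Sym2 (Fin n))), (∀ l ∈ orders, l.Nodup) →
      (∀ l ∈ passes, l ∈ orders) →
      ∀ (Ω : Type) [Finite Ω] [Nonempty Ω] (F : Ω → Clause v d → SimpleGraph (Fin n) → Prop),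
        OneSided k μ (fun ω G => Sat fun cl => F ω cl G) →
        (∀ ω cl, Recognised passes.flatten (2 ^ s) (F ω cl)) →
        N ^ 2 ≤ 4 ^ orders.length *
          (μ + (2 * v + 1) ^ d * ((2 * passes.length + 2) * s + 1))) ∧
    -- (3) the asymptotic form of (1)
    (∀ (f g : ℕ → ℕ) (c d k : ℕ), 4 ≤ k → ∀ ε : ℝ, 0 < ε → ∃ n0 : ℕ, ∀ n ≥ n0, ∀ (q v s μ : ℕ)
      (orders passes : List (List (Sym2 (Fin n)))), (∀ l ∈ orders, l.Nodup) →
      (∀ l ∈ passes, l ∈ orders) →
      (v : ℝ) ≤ g k * (Real.logb 2 (f k * (n : ℝ) ^ c) + 1) →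
      ∀ (Ω : Type) [Finite Ω] [Nonempty Ω] (R : Ω → Reduction n q v d),
        OneSided k μ (fun ω => (R ω).Accepts) →
        (∀ ω h cl, Recognised passes.flatten (2 ^ s) ((R ω).clause h cl) ∧
          Recognised passes.flatten (2 ^ s) (fun G => ¬ (R ω).clause h cl G)) →
        (n : ℝ) ^ (2 - ε) ≤
          4 ^ orders.length * (μ + q * ((passes.length + 1) * s + 1))) ∧
    -- (4) the asymptotic form of (2)
    (∀ (f g : ℕ → ℕ) (c d k : ℕ), 4 ≤ k → ∀ ε : ℝ, 0 < ε → ∃ n0 : ℕ, ∀ n ≥ n0, ∀ (v s μ : ℕ)
      (orders passes : List (List (Sym2 (Fin n)))), (∀ l ∈ orders, l.Nodup) →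
      (∀ l ∈ passes, l ∈ orders) →
      (v : ℝ) ≤ g k * (Real.logb 2 (f k * (n : ℝ) ^ c) + 1) →
      ∀ (Ω : Type) [Finite Ω] [Nonempty Ω] (F : Ω → Clause v d → SimpleGraph (Fin n) → Prop),
        OneSided k μ (fun ω G => Sat fun cl => F ω cl G) →
        (∀ ω cl, Recognised passes.flatten (2 ^ s) (F ω cl)) →
        (n : ℝ) ^ (2 - ε) ≤ 4 ^ orders.length * (μ + ((passes.length + 1) * s + 1))) ∧
    -- (5) recognising the clauses which do not belong to the formula
    (∀ (n k v d : ℕ), 1 ≤ n → ∀ l : List (Sym2 (Fin n)), (∀ x y : Fin n, x ≠ y → s(x, y) ∈ l) →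
      ∃ F : Clause v d → SimpleGraph (Fin n) → Prop,
        (∀ G, (Sat fun cl => F cl G) ↔ HasClique k G) ∧
        ∀ cl, Recognised l (n ^ k) fun G => ¬ F cl G) ∧
    -- (6) clauses of logarithmic width
    (∀ (k b : ℕ) (l : List (Sym2 (Fin (2 ^ b)))), (∀ x y : Fin (2 ^ b), x ≠ y → s(x, y) ∈ l) →
      ∃ F : Clause (k * b) (2 * b) → SimpleGraph (Fin (2 ^ b)) → Prop,
        (∀ G, (Sat fun cl => F cl G) ↔ HasClique k G) ∧
        ∀ cl, Recognised l 1 (F cl) ∧ Recognised l 1 fun G => ¬ F cl G) := by
  refine ⟨?_, ?_, ?_, ?_, ?_, ?_⟩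
  · intro n k N q v d s μ hk hN orders passes ho hp Ω _ _ R hR hr
    exact adaptive_bound hk hN orders passes ho hp R hR (fun ω h cl => (hr ω h cl).1)
      fun ω h cl => (hr ω h cl).2
  · intro n k N v d s μ hk hN orders passes ho hp Ω _ _ F hF hr
    exact manyone_bound hk hN orders passes ho hp F hF hr
  · intro f g c d k hk ε hε
    obtain ⟨n0, hn0⟩ := asym f g c d k ε hε
    refine ⟨n0, fun n hn q v s μ orders passes ho hp hv Ω _ _ R hR hr => ?_⟩
    exact (hn0 n hn).2 v hv q orders.length passes.length s μ
      (adaptive_bound hk (hn0 n hn).1 orders passes ho hp R hR (fun ω h cl => (hr ω h cl).1)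
        fun ω h cl => (hr ω h cl).2)
  · intro f g c d k hk ε hε
    obtain ⟨n0, hn0⟩ := asym f g c d k ε hε
    refine ⟨n0, fun n hn v s μ orders passes ho hp hv Ω _ _ F hF hr => ?_⟩
    have h := (hn0 n hn).2 v hv 1 orders.length passes.length s μ (by
      rw [one_mul]
      exact manyone_bound hk (hn0 n hn).1 orders passes ho hp F hF hr)
    rwa [Nat.cast_one, one_mul] at h
  · intro n k v d hn l hl
    exact upper_omit k v d hn l hl
  · intro k b l hl
    exact upper_wide k b l hl

end Pool.Agent.Results.MP_ddf912_lc.StreamingReductions
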