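import Pool.Agent.KS6_49.SR.Two3

/-!
# `M[1]` and `W[1]`: streaming reductions with two-sided error

We consider nonuniform random adaptive reductions from `p-CLIQUE` to `p-log-SAT(Γ_{1,d})` (formulas
with at most `d` literals per clause and with `v ≤ g(k) log (f(k) n ^ c)` variables) which are right
with probability at least `2 / 3` on each graph. For each history of answers and each possible clause,
a deterministic machine with a memory of `s` bits (`2 ^ s` states) decides in `p` passes over the
adjacency bits of the graph whether the clause belongs to the question. The order of the pairs in a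
pass is one of `r` arbitrary orders (`orders`); the orders are the same for all clauses. The machines
may depend arbitrarily on the random choice `ω`.

* (1) The explicit bound: `N ^ 2 ≤ 4 ^ r (1250 + 40000 q (2 v + 1) ^ d p s)` with `q` questions, where
  `4 N + k - 4 ≤ n`.
* (2) Asymptotically `n ^ (2 - ε) ≤ 4 ^ r (1 + q p s)` for all `f`, `g`, `c`, `d`, `k ≥ 4`, `ε > 0`: in
  this model `W[1]` is not contained in `M[1]`, even if (memory times number of passes times number of
  questions) is `n ^ (2 - ε)` and with `o(log n)` different orders.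
* (3) The exponent `2` is optimal: with one pass, one question, no error, and as many bits of memory as
  there are pairs, every machine model of this kind decides everything.

The proof of (1) uses a corruption lemma for set disjointness with a linear exponent (a variant of
the one of Razborov, for a product distribution): `Pool/Agent/KS6_49/SR/Raz.lean`.
-/

set_option autoImplicit false

namespace Pool.Agent.Results.MP_ddf912_lc.TwoSidedStreams

open Pool.Agent.KS6_49.SR

theorem result :
    -- (1) the explicit bound
    (∀ (n k N q v d s : ℕ), 4 ≤ k → 4 * N + (k - 4) ≤ n →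
      ∀ orders passes : List (List (Sym2 (Fin n))), (∀ l ∈ orders, l.Nodup) →
      (∀ l ∈ passes, l ∈ orders) →
      ∀ (Ω : Type) [Finite Ω] [Nonempty Ω] (R : Ω → Reduction n q v d),
        TwoSided k (fun ω => (R ω).Accepts) →
        (∀ ω h cl, Decided passes.flatten (2 ^ s) ((R ω).clause h cl)) →
        N ^ 2 ≤ 4 ^ orders.length *
          (1250 + 40000 * (q * (2 * v + 1) ^ d * (passes.length * s)))) ∧
    -- (2) the asymptotic form
    (∀ (f g : ℕ → ℕ) (c d k : ℕ), 4 ≤ k → ∀ ε : ℝ, 0 < ε → ∃ n0 : ℕ, ∀ n ≥ n0, ∀ (q v s : ℕ)
      (orders passes : List (List (Sym2 (Fin n)))), (∀ l ∈ orders, l.Nodup) →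
      (∀ l ∈ passes, l ∈ orders) →
      (v : ℝ) ≤ g k * (Real.logb 2 (f k * (n : ℝ) ^ c) + 1) →
      ∀ (Ω : Type) [Finite Ω] [Nonempty Ω] (R : Ω → Reduction n q v d),
        TwoSided k (fun ω => (R ω).Accepts) →
        (∀ ω h cl, Decided passes.flatten (2 ^ s) ((R ω).clause h cl)) →
        (n : ℝ) ^ (2 - ε) ≤ 4 ^ orders.length * (1 + q * passes.length * s)) ∧
    -- (3) one pass with one bit of memory for each pair
    (∀ (n k v d : ℕ) (l : List (Sym2 (Fin n))), (∀ x y : Fin n, x ≠ y → s(x, y) ∈ l) →
      ∃ R : Reduction n 1 v d, (∀ G, R.Accepts G ↔ HasClique k G) ∧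
        ∀ h cl, Decided l (2 ^ l.length) (R.clause h cl)) := by
  refine ⟨?_, ?_, ?_⟩
  · intro n k N q v d s hk hN orders passes ho hp Ω _ _ R hR hr
    exact two_bound hk hN orders passes ho hp R hR hr
  · intro f g c d k hk ε hε
    obtain ⟨n0, hn0⟩ := asym2 f g c d k ε hε
    refine ⟨n0, fun n hn q v s orders passes ho hp hv Ω _ _ R hR hr => ?_⟩
    exact (hn0 n hn).2 v hv q orders.length passes.length s
      (two_bound hk (hn0 n hn).1 orders passes ho hp R hR hr)
  · intro n k v d l hl
    exact upper_store k v d l hl

end Pool.Agent.Results.MP_ddf912_lc.TwoSidedStreams
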